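import Mathlib

/-!
# Representatives of projective points with bounded content
-/

set_option autoImplicit false

namespace Pool.Agent.Helper65.Sub

open NumberField
open scoped nonZeroDivisors

section
variable {K : Type} [Field K] [NumberField K]

theorem le_one_int (v : FinitePlace K) (z : 𝓞 K) : v (z : K) ≤ 1 := by
  rw [← FinitePlace.norm_embedding_eq v]
  exact NumberField.FinitePlace.norm_le_one K v.maximalIdeal z

/-- the size of an ideal at a finite place -/
noncomputable def V (v : FinitePlace K) (J : Ideal (𝓞 K)) : ℝ := ⨆ z : J, v ((z : 𝓞 K) : K)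

theorem bdd (v : FinitePlace K) (J : Ideal (𝓞 K)) :
    BddAbove (Set.range fun z : J => v ((z : 𝓞 K) : K)) := by
  refine ⟨1, ?_⟩
  rintro _ ⟨z, rfl⟩
  exact le_one_int v _

theorem le_V (v : FinitePlace K) {J : Ideal (𝓞 K)} {z : 𝓞 K} (hz : z ∈ J) :
    v (z : K) ≤ V v J := le_ciSup (bdd v J) ⟨z, hz⟩

theorem V_le (v : FinitePlace K) {J : Ideal (𝓞 K)} {B : ℝ} (h : ∀ z ∈ J, v ((z : 𝓞 K) : K) ≤ B) :
    V v J ≤ B := ciSup_le fun z => h z.1 z.2

theorem V_le_one (v : FinitePlace K) (J : Ideal (𝓞 K)) : V v J ≤ 1 :=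
  V_le v fun z _ => le_one_int v z

theorem V_pos (v : FinitePlace K) {J : Ideal (𝓞 K)} (hJ : J ≠ ⊥) : 0 < V v J := by
  obtain ⟨z, hz, hz0⟩ := Submodule.exists_mem_ne_zero_of_ne_bot hJ
  refine lt_of_lt_of_le ?_ (le_V v hz)
  rw [FinitePlace.pos_iff]
  simpa using hz0

theorem V_span {ι : Type} [Finite ι] [Nonempty ι] (v : FinitePlace K) (y : ι → 𝓞 K) :
    V v (Ideal.span (Set.range y)) = ⨆ j, v (y j : K) := by
  have hb : BddAbove (Set.range fun j => v (y j : K)) := Set.finite_range _ |>.bddAbove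
  have h0 : 0 ≤ ⨆ j, v (y j : K) :=
    (apply_nonneg v _).trans (le_ciSup hb (Classical.arbitrary ι))
  apply le_antisymm
  · apply V_le
    intro z hz
    induction hz using Submodule.span_induction with
    | mem x hx =>
      obtain ⟨j, rfl⟩ := hx
      exact le_ciSup hb j
    | zero =>
      simpa using h0
    | add x y _ _ hx hy =>
      have := FinitePlace.add_le v (x : K) (y : K)
      push_cast
      exact this.trans (max_le hx hy)
    | smul a x _ hx =>
      rw [smul_eq_mul]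
      push_cast
      rw [map_mul]
      calc v (a : K) * v (x : K) ≤ 1 * v (x : K) :=
            mul_le_mul_of_nonneg_right (le_one_int v a) (apply_nonneg v _)
        _ = v (x : K) := one_mul _
        _ ≤ _ := hx
  · apply ciSup_le
    intro j
    exact le_V v (Ideal.subset_span ⟨j, rfl⟩)

theorem V_mul (v : FinitePlace K) (b : 𝓞 K) (J : Ideal (𝓞 K)) :
    V v (Ideal.span {b} * J) = v (b : K) * V v J := by
  apply le_antisymm
  · apply V_le
    intro z hz
    rw [Ideal.mem_span_singleton_mul] at hz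
    obtain ⟨w, hw, rfl⟩ := hz
    push_cast
    rw [map_mul]
    exact mul_le_mul_of_nonneg_left (le_V v hw) (apply_nonneg v _)
  · unfold V
    rw [Real.mul_iSup_of_nonneg (apply_nonneg v _)]
    apply ciSup_le
    intro z
    have h : b * z.1 ∈ Ideal.span {b} * J :=
      Ideal.mem_span_singleton_mul.2 ⟨z.1, z.2, rfl⟩
    have := le_V v h
    push_cast at this
    rw [map_mul] at this
    exact this

end

/-- REP -/
theorem repK (K : Type) [Field K] [NumberField K] (ι : Type) [Fintype ι] [Nonempty ι] :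
    ∃ c : FinitePlace K → ℝ, (∀ v, 0 < c v) ∧ {v | c v ≠ 1}.Finite ∧
      ∀ x : ι → K, x ≠ 0 → ∃ μ : K, μ ≠ 0 ∧ ∀ v : FinitePlace K,
        c v ≤ (⨆ j, v (μ * x j)) ∧ (⨆ j, v (μ * x j)) ≤ 1 := by
  classical
  have hsurj : ∀ C : ClassGroup (𝓞 K), ∃ J : (Ideal (𝓞 K))⁰, ClassGroup.mk0 J = C :=
    fun C => ClassGroup.mk0_surjective C
  choose 𝔞 h𝔞 using hsurj
  have hne : ∀ C, (𝔞 C : Ideal (𝓞 K)) ≠ ⊥ := fun C => nonZeroDivisors.coe_ne_zero _
  refine ⟨fun v => ⨅ C, V v (𝔞 C), ?_, ?_, ?_⟩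
  · intro v
    obtain ⟨C, hC⟩ := exists_eq_ciInf_of_finite (f := fun C => V v (𝔞 C : Ideal (𝓞 K)))
    show 0 < ⨅ C, V v (𝔞 C : Ideal (𝓞 K))
    rw [← hC]
    exact V_pos v (hne C)
  · have hz : ∀ C, ∃ z : 𝓞 K, z ∈ (𝔞 C : Ideal (𝓞 K)) ∧ z ≠ 0 :=
      fun C => Submodule.exists_mem_ne_zero_of_ne_bot (hne C)
    choose z hz hz0 using hz
    have hfin : (⋃ C, {v : FinitePlace K | v (z C : K) ≠ 1}).Finite := by
      apply Set.finite_iUnion
      intro C
      exact FinitePlace.hasFiniteMulSupport_int (hz0 C)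
    refine hfin.subset ?_
    intro v hv
    by_contra hcon
    apply hv
    simp only [Set.mem_iUnion, Set.mem_ofPred_eq, not_exists, not_not] at hcon
    have : ∀ C, V v (𝔞 C : Ideal (𝓞 K)) = 1 := fun C =>
      le_antisymm (V_le_one v _) (by rw [← hcon C]; exact le_V v (hz C))
    show ⨅ C, V v (𝔞 C : Ideal (𝓞 K)) = 1
    simp only [this]
    exact ciInf_const
  · intro x hx
    obtain ⟨d, hd⟩ := IsLocalization.exist_integer_multiples (𝓞 K)⁰ Finset.univ x
    have hd' : ∀ j, ∃ y : 𝓞 K, (y : K) = (d : 𝓞 K) * x j := by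
      intro j
      obtain ⟨y, hy⟩ := hd j (Finset.mem_univ j)
      exact ⟨y, by rw [← Algebra.smul_def]; exact hy⟩
    choose y hy using hd'
    have hd0 : ((d : 𝓞 K) : K) ≠ 0 := by
      simpa using nonZeroDivisors.coe_ne_zero d
    have hI : Ideal.span (Set.range y) ≠ ⊥ := by
      intro h
      rw [Ideal.span_eq_bot] at h
      apply hx
      funext j
      have h1 := h (y j) ⟨j, rfl⟩
      have h2 := hy j
      rw [h1] at h2
      push_cast at h2
      rcases mul_eq_zero.1 h2.symm with h3 | h3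
      · exact absurd h3 hd0
      · simp [h3]
    have hI' : Ideal.span (Set.range y) ∈ (Ideal (𝓞 K))⁰ := mem_nonZeroDivisors_of_ne_zero hI
    obtain ⟨a, b, ha, hb, hab⟩ := ClassGroup.mk0_eq_mk0_iff.1
      (h𝔞 (ClassGroup.mk0 ⟨Ideal.span (Set.range y), hI'⟩)).symm
    set C := ClassGroup.mk0 (⟨Ideal.span (Set.range y), hI'⟩ : (Ideal (𝓞 K))⁰) with hC
    have ha0 : (a : K) ≠ 0 := by simpa using ha
    have hb0 : (b : K) ≠ 0 := by simpa using hb
    refine ⟨a * (d : 𝓞 K) / b, div_ne_zero (mul_ne_zero ha0 hd0) hb0, fun v => ?_⟩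
    have hva : 0 < v (b : K) := FinitePlace.pos_iff.2 hb0
    have key : (⨆ j, v (a * (d : 𝓞 K) / b * x j)) = V v (𝔞 C : Ideal (𝓞 K)) := by
      have h1 : V v (Ideal.span {a} * Ideal.span (Set.range y)) =
          V v (Ideal.span {b} * (𝔞 C : Ideal (𝓞 K))) := congrArg (V v) hab
      rw [V_mul, V_mul, V_span] at h1
      have h2 : ∀ j, v (a * (d : 𝓞 K) / b * x j) = (v (a : K) / v (b : K)) * v (y j : K) := by
        intro j
        have : (a : K) * (d : 𝓞 K) / b * x j = (a : K) / b * (y j : K) := by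
          rw [hy j]; ring
        rw [this, map_mul, map_div₀]
      simp only [h2]
      rw [← Real.mul_iSup_of_nonneg (div_nonneg (apply_nonneg v _) (apply_nonneg v _)),
        div_mul_eq_mul_div, h1, mul_comm, mul_div_assoc, div_self hva.ne', mul_one]
    rw [key]
    exact ⟨ciInf_le (Set.finite_range _).bddBelow C, V_le_one v _⟩

end Pool.Agent.Helper65.Sub
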